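import Pool.Agent.TH806.Tau
import Pool.Agent.Y969.GP.Def

set_option autoImplicit false

/-! Project GP (salvage, helper24): the second moment of zeta, upper bound. -/

namespace Pool.Agent.V8H24.GPX

open Complex Filter Topology MeasureTheory Set
open Pool.Agent.Y969.GP (S_SM ff)

lemma ff_Xz (t : ℝ) : ff t = Pool.Agent.TH806.Xz t ^ (2 : ℝ) := by
  unfold ff Pool.Agent.TH806.Xz Pool.Agent.H306R2.SM.cl
  rw [Real.rpow_two, mul_comm I]

lemma ff_cont' : Continuous ff := by
  have h : Continuous fun t => Pool.Agent.TH806.Xz t ^ (2 : ℝ) := Pool.Agent.TH806.Xz_pow_cont (by norm_num)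
  exact (funext ff_Xz : ff = _) ▸ h

theorem t_SM : S_SM := by
  obtain ⟨δ, hδ, -, h⟩ := Pool.Agent.TH806.mom_T (ε := 1) one_pos
  obtain ⟨T₀, hT₀⟩ := eventually_atTop.1 h
  obtain ⟨T1, hT1⟩ : ∃ T1 : ℝ, T1 = max T₀ 4 := ⟨_, rfl⟩
  have h1 : T₀ ≤ T1 := by rw [hT1]; exact le_max_left _ _
  have h2 : 4 ≤ T1 := by rw [hT1]; exact le_max_right _ _
  obtain ⟨K, hK⟩ : ∃ K : ℝ, K = ∫ u in (0:ℝ)..(2 * T1), ff u := ⟨_, rfl⟩
  have hff0 : ∀ u, 0 ≤ ff u := fun u => by unfold ff; positivity
  have hK0 : 0 ≤ K := by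
    rw [hK]; exact intervalIntegral.integral_nonneg (by linarith) fun u _ => hff0 u
  have hlog2 : 0 < Real.log 2 := Real.log_pos (by norm_num)
  refine ⟨8 + K / Real.log 2, by positivity, fun T hT => ?_⟩
  have hlT : Real.log 2 ≤ Real.log T := Real.log_le_log (by norm_num) hT
  have hlT0 : 0 < Real.log T := by linarith
  rcases le_or_gt T1 T with hc | hc
  · have h3 := hT₀ (2 * T) (by linarith) 2 (by simpa using hδ.le)
    have e1 : ((2:ℝ) ^ 2 / 4) = 1 := by norm_num
    rw [e1, Real.rpow_one, one_mul] at h3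
    have h4 := (abs_le.1 h3).2
    have e2 : ∫ u in (0:ℝ)..(2 * T), ff u = ∫ t in (0:ℝ)..(2 * T), Pool.Agent.TH806.Xz t ^ (2:ℝ) :=
      intervalIntegral.integral_congr fun t _ => ff_Xz t
    have h5 : Real.log (2 * T) ≤ 2 * Real.log T := by
      rw [Real.log_mul (by norm_num) (by linarith)]; linarith
    rw [e2]
    have h6 : 0 ≤ K / Real.log 2 * T * Real.log T := by positivity
    calc ∫ t in (0:ℝ)..(2 * T), Pool.Agent.TH806.Xz t ^ (2:ℝ) ≤ 2 * (2 * T * Real.log (2 * T)) := by linarith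
      _ ≤ 2 * (2 * T * (2 * Real.log T)) := by gcongr
      _ ≤ (8 + K / Real.log 2) * T * Real.log T := by linarith
  · have h3 : ∫ u in (0:ℝ)..(2 * T), ff u ≤ K := by
      rw [hK]
      exact intervalIntegral.integral_mono_interval le_rfl (by linarith) (by linarith)
        (Eventually.of_forall hff0) (ff_cont'.intervalIntegrable _ _)
    refine h3.trans ?_
    have h4 : K ≤ K / Real.log 2 * T * Real.log T := by
      calc K = K / Real.log 2 * 1 * Real.log 2 := by field_simp
        _ ≤ K / Real.log 2 * T * Real.log T := by gcongr; linarith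
    have h5 : 0 ≤ 8 * T * Real.log T := by positivity
    linarith

end Pool.Agent.V8H24.GPX
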