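import Pool.Agent.V8H24.GPX.ZL
import Pool.Agent.V8H24.GPX.SMom
import Pool.Agent.Y969.GP.Fin3
import Pool.Agent.Y969.GP.BR5
import Pool.Agent.Y125.GP.VAR
import Pool.Agent.Y434.GP.RPL
import Pool.Agent.Y961.GP.NS
import Pool.Agent.Y232.GP.E1
import Pool.Agent.Y86.GP.CT
import Pool.Agent.Y379.GP.Sp
import Pool.Agent.Y379.GP.Off
import Pool.Agent.Y545.GP.CR
import Pool.Agent.Y125.GP.LSW
import Pool.Agent.Y891.GP.AFE
import Pool.Agent.Y587.GP.V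
import Pool.Agent.Y587.GP.Chi
import Pool.Agent.Y22.GP.Tel
import Pool.Agent.Y155.GP.D1
import Pool.Agent.Y185.GP.HOL
import Pool.Agent.Y321.GP.FD
import Pool.Agent.Y319.GP.FB
import Pool.Agent.Y258.GP.MB
import Pool.Agent.Y79.GP.ZP
import Pool.Agent.Y180.GP.Mel

set_option autoImplicit false

/-! Project GP: the assembly (helper24), after the project of helper969. -/

namespace Pool.Agent.V8H24.GPX

open Pool.Agent.Y969.GP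

theorem gp_AFE : S_AFE := Pool.Agent.Y891.GP.t_AFE Pool.Agent.Y587.GP.t_V Pool.Agent.Y587.GP.Chi.t_CHI

theorem gp_LSW : S_LSW := Pool.Agent.Y125.GP.t_LSW Pool.Agent.Y379.GP.t_SP

theorem gp_CR : S_CR := Pool.Agent.Y545.GP.t_CR Pool.Agent.Y587.GP.t_V

theorem gp_VAR : S_VAR :=
  Pool.Agent.Y125.GP.t_VAR Pool.Agent.Y379.GP.t_SP gp_LSW Pool.Agent.Y379.GP.t_OFF gp_CR

theorem gp_RPL : S_RPL := Pool.Agent.Y434.GP.t_RPL gp_AFE t_SM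

theorem gp_TEL : S_TEL := Pool.Agent.Y22.GP.t_TEL Pool.Agent.Y155.GP.t_D1

theorem gp_TEL2 : S_TEL2 := Pool.Agent.Y22.GP.t_TEL2 Pool.Agent.Y155.GP.t_D2

theorem gp_FHD : S_FHD := Pool.Agent.Y319.GP.t_FHD Pool.Agent.Y321.GP.t_FD

theorem gp_FHC : S_FHC := Pool.Agent.Y319.GP.t_FHC Pool.Agent.Y321.GP.t_FD

theorem gp_HOL : S_HOL := Pool.Agent.Y185.GP.t_HOL gp_FHD gp_FHC

theorem gp_HOL2 : S_HOL2 := Pool.Agent.Y185.GP.t_HOL2 gp_FHD gp_FHC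

theorem gp_MB : S_MB :=
  Pool.Agent.Y258.GPMB.t_MB (Pool.Agent.Y319.GP.t_FB Pool.Agent.Y321.GP.t_FD) (t_ZL t_SM) Pool.Agent.Y79.GP.t_ZP

theorem gp_MEL : S_MEL := Pool.Agent.Y180.GP.t_MEL Pool.Agent.Y587.GP.t_V

theorem gp_MAIN : S_MAIN :=
  t_MAIN gp_VAR gp_RPL (t_BRW gp_TEL gp_TEL2 gp_HOL gp_HOL2 gp_MB gp_MEL)
    (t_RRW gp_TEL2 gp_HOL gp_HOL2 gp_MB) Pool.Agent.Y961.GP.t_NS (Pool.Agent.Y232.GP.t_E1 t_SM)
    (Pool.Agent.Y86.GP.t_CT Pool.Agent.Y587.GP.t_V)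

end Pool.Agent.V8H24.GPX
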