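import Pool.Agent.N879.PU.Asm3
import Pool.Agent.N879.PU.Iru
import Pool.Agent.N879.PU.Ku
import Pool.Agent.N879.PU.Reg
import Pool.Agent.N879.PU.Sms
import Pool.Agent.N879.PU.Telu
import Pool.Agent.N879.PU.Winu
import Pool.Agent.N879.PU.Em
import Pool.Agent.N879.PU.Mv
import Pool.Agent.TH509.GS.DIAG
import Pool.Agent.TH367.GS.SS
import Pool.Agent.TH347.GS.A4
import Pool.Agent.TH228.GS.ZM
import Pool.Agent.TH767.GS.NS
import Pool.Agent.TH448.GS.FL2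
import Pool.Agent.TH753.GS.GL2
import Pool.Agent.TH757.GS.CONT
import Pool.Agent.TH811.GS.One
import Pool.Agent.TH928.GS.MV

set_option autoImplicit false

/-! Project PU: the assembly (helper24), after the project of helper879. -/

namespace Pool.Agent.V8H24.GPX

open Pool.Agent.N879.PU

theorem gs_ONE : Pool.Agent.TH612.GS.S_ONE := Pool.Agent.TH811.GS.t_ONE Pool.Agent.TH928.GS.t_MV

theorem gs_SS : Pool.Agent.TH612.GS.S_SS := Pool.Agent.TH367.GS.t_SS Pool.Agent.TH448.GS.t_FL2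

theorem gs_A4 : Pool.Agent.TH612.GS.S_A4 :=
  Pool.Agent.TH347.GS.t_A4 Pool.Agent.TH757.GS.t_CONT (Pool.Agent.TH753.GS.t_GL2 Pool.Agent.TH448.GS.t_FL2)

theorem gs_ZM : Pool.Agent.TH612.GS.S_ZM := Pool.Agent.TH228.GS.t_ZM gs_ONE

theorem pu_MAIN : S_MAINU2 :=
  t_MAINU2 (t_KU t_EM t_MVS (t_MVT t_MVS)) (t_REG t_SMS) (t_WINU t_MVS) t_TELU t_IRU
    Pool.Agent.TH509.GS.t_DIAG gs_SS gs_A4 gs_ZM Pool.Agent.TH767.GS.t_NS

end Pool.Agent.V8H24.GPX
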