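import Pool.Agent.V8H24.GPX.SMom
import Pool.Agent.V8H24.GPX.PUAsm
import Pool.Agent.TH612.GS.GF4
import Pool.Agent.TH612.GS.GF3
import Pool.Agent.TH406.GF.REPA
import Pool.Agent.TH236.GF.OQ
import Pool.Agent.TH321.GF.AQ
import Pool.Agent.TH740.GF.VQ
import Pool.Agent.TH263.GF.A2
import Pool.Agent.TH738.GF.TMV
import Pool.Agent.TH576.GF.TL
import Pool.Agent.TH751.GF.MVB
import Pool.Agent.TH914.GF.TW
import Pool.Agent.TH778.GF.ST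
import Pool.Agent.TH445.GF.DS
import Pool.Agent.TH479.GF.HD
import Pool.Agent.TH113.GF.A5
import Pool.Agent.TH740.GF.GL3
import Pool.Agent.TH928.GF.ZN
import Pool.Agent.TH637.GF.NA

set_option autoImplicit false

/-! Project GF: the assembly (helper24), after the project of helper612. -/

namespace Pool.Agent.V8H24.GPX

open Pool.Agent.TH612.GS

theorem gs_SM : S_SM := by
  obtain ⟨C, hC, h⟩ := t_SM
  refine ⟨C, 2, hC, le_rfl, fun T hT => ?_⟩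
  exact h T hT

theorem gf_W : S_W :=
  t_W Pool.Agent.TH406.GF.t_REPA (Pool.Agent.TH236.GF.t_OQ Pool.Agent.TH321.GF.t_AQ) gs_SM
    (Pool.Agent.TH740.GF.t_VQ Pool.Agent.TH928.GS.t_MV) Pool.Agent.TH263.GF.t_A2
    (Pool.Agent.TH738.GF.t_TMV Pool.Agent.TH928.GS.t_MV)
    (Pool.Agent.TH576.GF.t_TL Pool.Agent.TH263.GF.t_A2 Pool.Agent.TH751.GF.t_MVB)
    (Pool.Agent.TH914.GF.t_TW Pool.Agent.TH778.GF.t_ST Pool.Agent.TH445.GF.t_DS) Pool.Agent.TH479.GF.t_HD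

theorem gf_MAIN (k : ℕ) (hk : k ≤ 4) : ∃ δ : ℝ, 0 < δ ∧ ∀ α : Fin k → ℝ,
    ∃ T₀ : ℝ, ∀ T : ℝ, T₀ ≤ T → ∀ S : ℝ, 0 ≤ S → S ≤ T →
    mP (Fin k) T (BadD α T S (T ^ (1 - δ))) ≤ ENNReal.ofReal (T ^ (k - δ : ℝ)) :=
  mainD gf_W (Pool.Agent.TH113.GF.t_A5 Pool.Agent.TH757.GS.t_CONT (Pool.Agent.TH740.GF.t_GL3 Pool.Agent.TH928.GS.t_MV))
    (Pool.Agent.TH928.GF.t_ZN gs_ONE) Pool.Agent.TH637.GF.t_NA k hk

end Pool.Agent.V8H24.GPX
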