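import Pool.Agent.V8H24.GPX.Asm
import Pool.Agent.Y969.SM.Fin
import Pool.Agent.Y969.SM.Rel
import Pool.Agent.Y969.SM.Res
import Pool.Agent.Y969.SM.Win
import Pool.Agent.Y246.SX.W1
import Pool.Agent.Y293.SX.TL2
import Pool.Agent.Y360.SX.F8
import Pool.Agent.Y369.SX.Ars
import Pool.Agent.Y4.SX.UB
import Pool.Agent.Y429.SX.FB
import Pool.Agent.Y448.SX.W2
import Pool.Agent.Y475.SX.SHP
import Pool.Agent.Y514.SX.ZE
import Pool.Agent.Y54.SX.A2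
import Pool.Agent.Y547.SX.Min
import Pool.Agent.Y604.SX.AS
import Pool.Agent.Y620.SX.CRA
import Pool.Agent.Y670.SX.TAY
import Pool.Agent.Y686.SX.Lsm
import Pool.Agent.Y726.SX.TWC
import Pool.Agent.Y739.SX.FA
import Pool.Agent.Y76.SX.ARI
import Pool.Agent.Y77.SX.CTW
import Pool.Agent.Y780.SX.Blk
import Pool.Agent.Y781.SX.LB
import Pool.Agent.Y809.SX.UB0
import Pool.Agent.Y81.SX.AAP
import Pool.Agent.Y81.SX.T0
import Pool.Agent.Y812.SX.OMX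
import Pool.Agent.Y852.SX.Loc
import Pool.Agent.Y901.SX.A1
import Pool.Agent.Y953.SX.Ort
import Pool.Agent.Y96.SX.ZM
import Pool.Agent.Y978.SX.EUL
import Pool.Agent.Y983.SX.EUT
import Pool.Agent.TH384.N4_FM
import Pool.Agent.TH806.N4.Abs

set_option autoImplicit false

/-! Project SX: the assembly (helper24), after the project of helper969. -/

namespace Pool.Agent.V8H24.GPX

open Finset Filter Topology MeasureTheory Complex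
open Pool.Agent.Y969.SM
open Pool.Agent.H306R2.SM (om cl Yf)
open Pool.Agent.H262R4.TM (Rng Ck)

theorem sx_ORT : S_ORT := Pool.Agent.Y953.SX.t_ORT Pool.Agent.Y379.GP.t_SP

theorem sx_CRA : S_CRA := Pool.Agent.Y620.SX.t_CRA Pool.Agent.Y587.GP.t_V

theorem sx_k : ∃ k : ℕ, 2 ≤ k ∧ S_FA k := by
  obtain ⟨k₀, h⟩ := Pool.Agent.Y739.SX.t_FA
  exact ⟨max k₀ 2, le_max_right _ _, h _ (le_max_left _ _)⟩

theorem sx_AS : S_AS :=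
  Pool.Agent.Y604.SX.t_AS Pool.Agent.Y726.SX.t_TWC Pool.Agent.TH384.N4_FM.t_FM Pool.Agent.TH806.N4.a_ING
    Pool.Agent.Y901.SX.t_A1 Pool.Agent.Y54.SX.t_A2 sx_k

theorem sx_F0 {k : ℕ} (h : S_FA k) : ∀ᶠ T : ℝ in atTop, ∀ κ : ℕ, Rng T κ →
    ∫ t in Set.Ioi (0:ℝ), om κ (κ / T) t * |F0 k T t| ≤ Real.log T ^ 5 ∧
      IntegrableOn (fun t => om κ (κ / T) t * |F0 k T t|) (Set.Ioi 0) := by
  obtain ⟨C, hC, h⟩ := h
  filter_upwards [h, Real.tendsto_log_atTop.eventually_ge_atTop C, Real.tendsto_log_atTop.eventually_ge_atTop 0]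
    with T hT hL hL0 κ hκ
  obtain ⟨-, h2, -, -, h5, -⟩ := hT κ hκ
  refine ⟨h5.trans ?_, h2⟩
  calc C * Real.log T ^ 4 ≤ Real.log T * Real.log T ^ 4 := by gcongr
    _ = Real.log T ^ 5 := by ring

theorem sx_WIN : S_WIN := by
  obtain ⟨k, hk, hFA⟩ := sx_k
  have hFB : S_FB k := Pool.Agent.Y429.SX.t_FB Pool.Agent.Y360.SX.t_F8 k hk
  have hUB : S_UB k := Pool.Agent.Y4.SX.t_UB k
    (Pool.Agent.Y809.SX.t_UB0 Pool.Agent.Y726.SX.t_TWC Pool.Agent.TH384.N4_FM.t_FM Pool.Agent.Y369.SX.t_ARS k hk) hFB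
  exact t_WIN k hFB (Pool.Agent.Y246.SX.t_W1 k hFA hFB t_SM)
    (Pool.Agent.Y448.SX.t_W2 k hFB (sx_F0 hFA) gp_AFE t_SM)
    (Pool.Agent.Y547.SX.t_MIN k Pool.Agent.Y780.SX.t_BLK hFB (sx_F0 hFA) gp_LSW gp_CR)
    (Pool.Agent.Y670.SX.t_TAY k sx_CRA Pool.Agent.Y812.SX.t_OMX sx_ORT hFA hFB)
    (Pool.Agent.Y293.SX.t_TL2 k hUB sx_ORT Pool.Agent.Y76.SX.t_ARI hFB)
    (Pool.Agent.Y81.SX.T0.t_T0 k hUB sx_AS hFA sx_ORT Pool.Agent.Y76.SX.t_ARI Pool.Agent.Y76.SX.t_W2B hFB)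
    Pool.Agent.Y77.SX.t_CTW Pool.Agent.Y587.GP.t_V

theorem sx_SHP : S_SHP := by
  obtain ⟨k, hk, hFA⟩ := sx_k
  refine Pool.Agent.Y475.SX.t_SHP t_SM Pool.Agent.Y77.SX.t_CTW ?_
  obtain ⟨C, hC, h⟩ := hFA
  refine ⟨C, hC, ?_⟩
  filter_upwards [h] with T hT κ hκ
  exact (hT κ hκ).2.2.2.2.2

theorem sx_EUL : S_EUL :=
  Pool.Agent.Y978.SX.t_EUL Pool.Agent.Y852.SX.t_LOC (Pool.Agent.Y983.SX.EUT.t_EUT Pool.Agent.Y686.SX.t_LSM) sx_ORT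
    Pool.Agent.Y76.SX.t_ARI Pool.Agent.Y76.SX.t_W2B

theorem sx_MAIN : S_MAIN := t_MAIN sx_WIN sx_SHP sx_EUL Pool.Agent.Y77.SX.t_CTW

theorem sx_AA : S_AA := Pool.Agent.Y81.SX.AAP.t_AA Pool.Agent.Y852.SX.t_LOC

theorem sx_ZE : S_ZE := Pool.Agent.Y514.SX.t_ZE sx_AA Pool.Agent.Y96.SX.t_ZM

theorem sx_REL : S_REL := t_REL sx_MAIN (Pool.Agent.Y781.SX.t_LB Pool.Agent.Y852.SX.t_LOC) sx_ZE

end Pool.Agent.V8H24.GPX
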